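import Mathlib
import Pool.Agent.U121.RS.Main

/-!
# Binary codes in random sets of words

Let `S` be a random set of binary words of length `n` that contains each word with probability
`2 ^ (-(1 - σ) n)`, independently, so that `S` has about `2 ^ (σ n)` words (`σ = 1`: all words).
We study the largest codes with minimum distance `δ n` all of whose words belong to `S`.

* Transference: with probability near one their exponent is `g(n, d, σ)`, which is computed from the
  largest sets of words in which every word has at most `2 ^ ((1 - σ) n)` others at distance less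
  than `d`. The upper limit `R(δ, σ)` of these exponents is nondecreasing and `1`-Lipschitz in `σ`,
  and `R(δ, 1) = R(δ)`.
* For `0 ≤ σ ≤ σ*(δ) = ((1 - H(δ)) + H(1/2 - √(δ (1 - δ)))) / 2`, the mean of the exponents of
  Gilbert and Varshamov and of the first linear programming bound, the exponent is
  `min(σ, 1 - H(δ))`: the bound of Gilbert and Varshamov is sharp in random sets of `2 ^ (σ n)`
  words.
* `R(δ) = 1 - H(δ)` if and only if it is sharp in random sets of `2 ^ (σ n)` words for all `σ < 1`.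
-/

set_option autoImplicit false

open Filter Finset
open scoped Topology

namespace Pool.Agent.Results.MP_0430e4_lc.CodesInRandomSets

/-- `A(n,d)`: the largest size of a binary code of length `n` with minimum distance at least `d`. -/
noncomputable def A (n d : ℕ) : ℕ :=
  sSup {k | ∃ C : Finset (Fin n → Bool),
    (∀ x ∈ C, ∀ y ∈ C, x ≠ y → d ≤ hammingDist x y) ∧ C.card = k}

/-- The asymptotic rate `R(δ) = limsup (1/n) log₂ A(n, ⌈δ n⌉)`. -/
noncomputable def R (δ : ℝ) : ℝ :=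
  limsup (fun n : ℕ => Real.logb 2 (A n ⌈δ * n⌉₊) / n) atTop

/-- The binary entropy function `H₂(x) = - x log₂ x - (1 - x) log₂ (1 - x)`. -/
noncomputable def H (x : ℝ) : ℝ := -x * Real.logb 2 x - (1 - x) * Real.logb 2 (1 - x)

/-- The largest size of a code with minimum distance at least `d` all of whose words belong to the
set `S`. -/
noncomputable def codeIn {n : ℕ} (S : Finset (Fin n → Bool)) (d : ℕ) : ℕ :=
  sSup {k | ∃ C : Finset (Fin n → Bool), C ⊆ S ∧
    (∀ x ∈ C, ∀ y ∈ C, x ≠ y → d ≤ hammingDist x y) ∧ C.card = k}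

open Classical in
/-- The probability of the event `E` for the random set `S` of words of length `n` that contains
each word with probability `p`, independently of the other words. -/
noncomputable def prob (n : ℕ) (p : ℝ) (E : Set (Finset (Fin n → Bool))) : ℝ :=
  ∑ S : Finset (Fin n → Bool), if S ∈ E then p ^ S.card * (1 - p) ^ (2 ^ n - S.card) else 0

/-- `D(n, d, t)`: the largest size of a set `W` of words of length `n` such that every word of `W`
has at most `t` other words of `W` at distance less than `d`. -/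
noncomputable def sparse (n d : ℕ) (t : ℝ) : ℕ :=
  sSup {k | ∃ W : Finset (Fin n → Bool),
    (∀ x ∈ W, ((W.filter fun y => y ≠ x ∧ hammingDist x y < d).card : ℝ) ≤ t) ∧ W.card = k}

/-- `g(n, d, σ) = (1/n) log₂ D(n, d, 2 ^ ((1 - σ) n)) - (1 - σ)`. -/
noncomputable def g (n d : ℕ) (σ : ℝ) : ℝ :=
  Real.logb 2 (sparse n d ((2 : ℝ) ^ ((1 - σ) * n))) / n - (1 - σ)

/-- `R(δ, σ) = limsup g(n, ⌈δ n⌉, σ)`. -/
noncomputable def Rset (δ σ : ℝ) : ℝ := limsup (fun n : ℕ => g n ⌈δ * n⌉₊ σ) atTop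

/-- `σ*(δ) = ((1 - H(δ)) + H(1/2 - √(δ (1 - δ)))) / 2`. -/
noncomputable def sigmaStar (δ : ℝ) : ℝ := (1 - H δ + H (1 / 2 - √(δ * (1 - δ)))) / 2

open Pool.Agent.U121 in
lemma sparse_eq (n d : ℕ) (t : ℝ) : sparse n d t = RS.DD n d t := by
  unfold sparse RS.DD
  congr 1

open Pool.Agent.U121 in
lemma g_eq (n d : ℕ) (σ : ℝ) : g n d σ = RS.gg n d σ := by
  unfold g RS.gg
  rw [sparse_eq]

open Pool.Agent.U121 in
lemma Rset_eq (δ σ : ℝ) : Rset δ σ = RS.RR δ σ := by
  unfold Rset RS.RR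
  simp_rw [g_eq]

open Pool.Agent.U121 in
lemma prob_eq (n : ℕ) (p : ℝ) (E : Set (Finset (Fin n → Bool))) :
    prob n p E = RS.prob p (fun S => S ∈ E) := by
  unfold prob RS.prob RS.wt
  rw [RS.card_cube]

theorem result :
    -- (1) the exponent of the largest code in a random set is concentrated at `g(n, d, σ)`,
    -- uniformly in `d` and `σ`
    (∀ ε : ℝ, 0 < ε → ∃ n₀ : ℕ, ∀ n ≥ n₀, ∀ d : ℕ, ∀ σ : ℝ, 0 ≤ σ → σ ≤ 1 →
      1 - ε ≤ prob n ((2 : ℝ) ^ ((σ - 1) * n))
        {S | |Real.logb 2 (codeIn S d) / n - g n d σ| ≤ ε}) ∧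
    -- (2) `R(δ, σ)` connects the case of all words, `σ = 1`, with smaller densities
    (∀ δ : ℝ, Rset δ 1 = R δ ∧ ∀ σ τ : ℝ, 0 ≤ σ → σ ≤ τ → τ ≤ 1 →
      Rset δ σ ≤ Rset δ τ ∧ Rset δ τ ≤ Rset δ σ + (τ - σ)) ∧
    -- (3) the exponent for `σ ≤ σ*(δ)`
    (∀ δ : ℝ, 0 < δ → δ < 1 / 2 → 1 - H δ < sigmaStar δ ∧ sigmaStar δ < 1 ∧
      ∀ ε : ℝ, 0 < ε → ∃ n₀ : ℕ, ∀ n ≥ n₀, ∀ σ : ℝ, 0 ≤ σ → σ ≤ sigmaStar δ →
        1 - ε ≤ prob n ((2 : ℝ) ^ ((σ - 1) * n))
          {S | |Real.logb 2 (codeIn S ⌈δ * n⌉₊) / n - min σ (1 - H δ)| ≤ ε}) ∧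
    -- (4) the bound of Gilbert and Varshamov is sharp if and only if it is sharp in the random sets
    -- of all densities `2 ^ (-(1 - σ) n)`, `σ < 1`
    (∀ δ : ℝ, 0 < δ → δ < 1 / 2 →
      (R δ = 1 - H δ ↔ ∀ σ : ℝ, 0 < σ → σ < 1 → ∀ ε : ℝ, 0 < ε →
        Tendsto (fun n : ℕ => prob n ((2 : ℝ) ^ ((σ - 1) * n))
          {S | Real.logb 2 (codeIn S ⌈δ * n⌉₊) / n ≤ 1 - H δ + ε}) atTop (𝓝 1))) := by
  refine ⟨?_, ?_, ?_, ?_⟩
  · intro ε hε
    obtain ⟨n₀, h⟩ := Pool.Agent.U121.RS.conc hε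
    refine ⟨n₀, fun n hn d σ h0 h1 => ?_⟩
    rw [prob_eq, g_eq]
    exact h n hn d σ h0 h1
  · intro δ
    rw [Rset_eq]
    refine ⟨Pool.Agent.U121.RS.RR_one δ, fun σ τ h0 h1 _ => ?_⟩
    rw [Rset_eq, Rset_eq]
    exact ⟨Pool.Agent.U121.RS.RR_mono h0 h1, Pool.Agent.U121.RS.RR_lip h0 h1⟩
  · intro δ h0 h1
    have hs : sigmaStar δ = 1 - H δ + Pool.Agent.U121.RS.cc δ := Pool.Agent.U121.RS.sst_eq δ
    refine ⟨?_, Pool.Agent.U121.RS.sst_lt_one h0 h1, ?_⟩
    · rw [hs]
      have := Pool.Agent.U121.RS.cc_pos h0 h1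
      linarith
    · intro ε hε
      obtain ⟨n₀, h⟩ := Pool.Agent.U121.RS.conc_value h0 h1 hε
      refine ⟨n₀, fun n hn σ g0 g1 => ?_⟩
      rw [prob_eq]
      exact h n hn σ g0 g1
  · intro δ h0 h1
    have h := Pool.Agent.U121.RS.criterion h0 h1
    simp_rw [prob_eq]
    exact h

end Pool.Agent.Results.MP_0430e4_lc.CodesInRandomSets
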