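import Pool.Agent.U180.CG.Canon
import Pool.Agent.U180.CG.Lim3

/-!
# Binary codes: the equation of state of the random codes of the hard-core model

Let `d` be odd and let `V = V(n, d)` be the number of words at distance less than `d` from a word.
The hard-core model (the gas of codewords) at the activity `λ > 0` is the random code `C` of
length `n` and minimum distance at least `d` which is chosen with probability proportional to
`λ ^ |C|`. At small activities it is a code with the size of the bound of Gilbert and Varshamov; as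
`λ → ∞` it is one of the best codes. Put

`χ(δ) = min ((H(δ) + H(1/2 - √(δ(1 - δ))) - 1) / 2, H(δ) - δ - (1 - δ) H(δ / (2(1 - δ)))) > 0`.

We prove, for `d / n → δ`, `0 < δ < 1/2`, uniformly for all activities `λ = w e^w / V` with
`w e^w ≤ 2^((χ(δ) - ε) n)`, that the mean size of the code is `(1 + o(1)) w 2^n / V` and that the
logarithm of the partition function is `(1 + o(1)) (w + w^2 / 2) 2^n / V` (mean field equation of
state). Consequently the number of codes with `k` words and minimum distance at least `d` is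
`(2^(n k) / k!) exp (-(1 + o(1)) k^2 V / 2^(n + 1))` for all `k` between `ε 2^n / V` and
`(χ(δ) - ε) (log 2) n 2^n / V`. For the activities `2^(x n) / V` with `0 ≤ x < χ(δ)` the mean size
has the exponent `1 - H(δ)` of Gilbert and Varshamov; and `R(δ)` is larger than `1 - H(δ)` if and
only if the exponent of the mean size is larger than `1 - H(δ)` for some activity `2^(x n) / V` with
`χ(δ) ≤ x < H(δ)`.

Proof. Upper bound: a set of words of density `ρ` contains a word with at least `(ρ - κ) V` of its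
words at distance less than `d`; this follows from the signs and sizes of the values of the
Krawtchouk polynomials (the spectrum of the balls of even radius), and gives an exact form of the
container method by induction. Lower bound: the graph induced on a ball is sparse. The canonical
form (number of codes with `k` words) follows by Legendre duality. For the last part a code with a
larger minimum distance is perturbed.
-/

open Filter Finset
open scoped Topology

namespace Pool.Agent.Results.MP_0430e4_lc.EquationOfState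

/-- The set `C` of binary words of length `n` has minimum distance at least `d`. -/
def IsCode {n : ℕ} (d : ℕ) (C : Finset (Fin n → Bool)) : Prop :=
  ∀ x ∈ C, ∀ y ∈ C, x ≠ y → d ≤ hammingDist x y

/-- `A(n,d)`: the largest size of a binary code of length `n` with minimum distance at least `d`. -/
noncomputable def A (n d : ℕ) : ℕ :=
  sSup {k | ∃ C : Finset (Fin n → Bool), IsCode d C ∧ C.card = k}

/-- The asymptotic rate `R(δ) = limsup (1/n) log₂ A(n, ⌈δ n⌉)`. -/
noncomputable def R (δ : ℝ) : ℝ :=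
  limsup (fun n : ℕ => Real.logb 2 (A n ⌈δ * n⌉₊) / n) atTop

/-- `liminf (1/n) log₂ A(n, ⌈δ n⌉)`. -/
noncomputable def Rlow (δ : ℝ) : ℝ :=
  liminf (fun n : ℕ => Real.logb 2 (A n ⌈δ * n⌉₊) / n) atTop

/-- The binary entropy function `H₂(x) = - x log₂ x - (1 - x) log₂ (1 - x)`. -/
noncomputable def H (x : ℝ) : ℝ := -x * Real.logb 2 x - (1 - x) * Real.logb 2 (1 - x)

/-- The number of the words of length `n` at distance less than `d` from a given word. -/
def V (n d : ℕ) : ℕ := ∑ i ∈ range d, n.choose i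

open Classical in
/-- All binary codes of length `n` with minimum distance at least `d`. -/
noncomputable def codes (n d : ℕ) : Finset (Finset (Fin n → Bool)) := univ.filter (IsCode d)

/-- The partition function: a code `C` has the weight `lam ^ |C|`. -/
noncomputable def partition (n d : ℕ) (lam : ℝ) : ℝ := ∑ C ∈ codes n d, lam ^ C.card

/-- The mean size of the random code which is `C` with probability `lam ^ |C| / partition`. -/
noncomputable def meanSize (n d : ℕ) (lam : ℝ) : ℝ :=
  (∑ C ∈ codes n d, C.card * lam ^ C.card) / partition n d lam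

/-- The number of the codes of length `n` with `k` words and minimum distance at least `d`. -/
noncomputable def count (n d k : ℕ) : ℕ := ((codes n d).filter fun C => C.card = k).card

/-- The exponent of the range of the equation of state. -/
noncomputable def chi (δ : ℝ) : ℝ :=
  min ((H δ + H (1 / 2 - √(δ * (1 - δ))) - 1) / 2)
    (H δ - δ - (1 - δ) * H (δ / (2 * (1 - δ))))

/-- The largest odd number which is at most `⌈δ n⌉` (for `δ n > 0`). -/
noncomputable def oddDist (δ : ℝ) (n : ℕ) : ℕ := 2 * ((⌈δ * n⌉₊ - 1) / 2) + 1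

/-- `(1/n) log₂` of the mean size at the activity `2 ^ (x n) / V`, for the minimum distance
`oddDist δ n`. -/
noncomputable def gasRate (δ x : ℝ) (n : ℕ) : ℝ :=
  Real.logb 2 (meanSize n (oddDist δ n) ((2 : ℝ) ^ (x * n) / V n (oddDist δ n))) / n

/-! ### Translation -/

open Pool.Agent.U180.CG in
theorem codes_eq (n t : ℕ) : codes n (t + 1) = inds (cl n t) (univ : Finset (Fin n → Bool)) := by
  classical
  ext C
  rw [mem_inds]
  unfold codes
  rw [mem_filter]
  exact ⟨fun h => ⟨subset_univ _, isCode_iff.1 h.2⟩, fun h => ⟨mem_univ _, isCode_iff.2 h.2⟩⟩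

open Pool.Agent.U180.CG in
theorem partition_eq (n t : ℕ) (lam : ℝ) : partition n (t + 1) lam = Z (cl n t) lam univ := by
  unfold partition Z
  rw [codes_eq]

open Pool.Agent.U180.CG in
theorem meanSize_eq (n t : ℕ) (lam : ℝ) : meanSize n (t + 1) lam = mn n t lam := by
  unfold meanSize mn
  rw [partition_eq, codes_eq]
  rfl

open Pool.Agent.U180.CG in
theorem count_eq (n t k : ℕ) : count n (t + 1) k = Nk n t k := by
  unfold count Nk
  rw [codes_eq]

theorem V_eq (n t : ℕ) : V n (t + 1) = Pool.Agent.U180.BC.ball n t := rfl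

open Pool.Agent.U180.CG in
theorem gasRate_eq (δ x : ℝ) : gasRate δ x = gr δ x := by
  funext n
  unfold gasRate gr oddDist
  rw [meanSize_eq, V_eq]
  rfl

theorem H_eq (x : ℝ) : H x = Pool.Agent.U180.CG.h x / Real.log 2 := Pool.Agent.U180.CG.H_eq x

open Pool.Agent.U180.CG in
theorem chi_eq (δ : ℝ) : chi δ * Real.log 2 = XX δ := by
  have hlog : 0 < Real.log 2 := Real.log_pos (by norm_num)
  unfold chi XX X1 X2
  rw [min_mul_of_nonneg _ _ hlog.le, H_eq, H_eq, H_eq]
  congr 1
  · field_simp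
  · field_simp
    ring

theorem result :
    -- (1) inequalities for all lengths and activities
    (∀ n d : ℕ, Odd d → 2 * d ≤ n + 2 → ∀ w : ℝ, 0 < w →
      (∀ κ : ℝ, 0 ≤ κ → (∀ s : ℕ, 1 ≤ s → s ≤ n →
          ((n : ℝ) + 1 - 2 * s) ^ 2 < 4 * ((d : ℝ) - 1) * ((n : ℝ) + 1 - d) →
          (2 : ℝ) ^ n ≤ κ ^ 2 * V n d * n.choose s) →
        2 * (w * Real.exp w) ≤ V n d →
        V n d / 2 ^ n * Real.log (partition n d (w * Real.exp w / V n d)) ≤
          w + w ^ 2 / 2 + 2 * (κ + w / V n d) * (w * Real.exp w)) ∧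
      (∀ z : ℝ, 0 < z → z ≤ 1 →
        2 * (w * Real.exp w / V n d) * (2 ^ (d - 1) * (z ^ (d - 1))⁻¹ * (1 + z ^ 2) ^ (n + 1 - d)) ≤
          1 →
        (1 - 2 * (w * Real.exp w / V n d) *
            (2 ^ (d - 1) * (z ^ (d - 1))⁻¹ * (1 + z ^ 2) ^ (n + 1 - d))) * w ≤
          V n d / 2 ^ n * meanSize n d (w * Real.exp w / V n d))) ∧
    ∀ δ : ℝ, 0 < δ → δ < 1 / 2 → 0 < chi δ ∧
    -- (2) the equation of state
    (∀ ε : ℝ, 0 < ε → ∃ η : ℝ, 0 < η ∧ ∃ n₀ : ℕ, ∀ n : ℕ, n₀ ≤ n → ∀ d : ℕ, Odd d →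
      |(d : ℝ) - δ * n| ≤ η * n → ∀ w : ℝ, 0 < w →
      w * Real.exp w ≤ (2 : ℝ) ^ ((chi δ - ε) * n) →
        |V n d / 2 ^ n * meanSize n d (w * Real.exp w / V n d) - w| ≤ ε * w ∧
        |V n d / 2 ^ n * Real.log (partition n d (w * Real.exp w / V n d)) - (w + w ^ 2 / 2)| ≤
          ε * (w + w ^ 2 / 2)) ∧
    -- (3) the number of codes with `k` words
    (∀ ε : ℝ, 0 < ε → ∃ η : ℝ, 0 < η ∧ ∃ n₀ : ℕ, ∀ n : ℕ, n₀ ≤ n → ∀ d : ℕ, Odd d →
      |(d : ℝ) - δ * n| ≤ η * n → ∀ k : ℕ, ε * 2 ^ n ≤ k * V n d →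
      (k * V n d : ℝ) ≤ (chi δ - ε) * Real.log 2 * n * 2 ^ n →
        0 < count n d k ∧
        |Real.log (k.factorial * count n d k / ((2 : ℝ) ^ n) ^ k) + k ^ 2 * V n d / 2 ^ (n + 1)| ≤
          ε * (k ^ 2 * V n d / 2 ^ n)) ∧
    -- (4) activities `2 ^ (x n) / V` below the exponent `χ(δ)`
    (∀ x : ℝ, 0 < x → x < chi δ → ∀ d : ℕ → ℕ, (∀ n, Odd (d n)) →
      Tendsto (fun n : ℕ => (d n : ℝ) / n) atTop (𝓝 δ) →
      Tendsto (fun n : ℕ => meanSize n (d n) ((2 : ℝ) ^ (x * n) / V n (d n)) * V n (d n) /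
        (2 ^ n * n)) atTop (𝓝 (x * Real.log 2))) ∧
    (∀ x : ℝ, 0 ≤ x → x < chi δ → Tendsto (gasRate δ x) atTop (𝓝 (1 - H δ))) ∧
    -- (5) comparison with the best codes
    (∀ x : ℝ, 0 ≤ x → 1 - H δ ≤ liminf (gasRate δ x) atTop ∧
      liminf (gasRate δ x) atTop ≤ Rlow δ ∧ limsup (gasRate δ x) atTop ≤ R δ) ∧
    (1 - H δ < R δ ↔ ∃ x : ℝ, chi δ ≤ x ∧ x < H δ ∧ 1 - H δ < limsup (gasRate δ x) atTop) ∧
    (1 - H δ < Rlow δ ↔ ∃ x : ℝ, chi δ ≤ x ∧ x < H δ ∧ 1 - H δ < liminf (gasRate δ x) atTop) := by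
  have hlog : 0 < Real.log 2 := Real.log_pos (by norm_num)
  have hlog1 : Real.log 2 ≤ 1 := by linarith [Real.log_two_lt_d9]
  refine ⟨?_, ?_⟩
  · intro n d hd hdn w hw
    obtain ⟨t, ht, rfl⟩ : ∃ t, Even t ∧ d = t + 1 := by
      obtain ⟨k, hk⟩ := hd
      exact ⟨2 * k, even_two_mul k, hk⟩
    rw [V_eq, partition_eq, meanSize_eq]
    have hb := Pool.Agent.U180.CG.ball_pos n t
    refine ⟨fun κ hκ hs hw1 => ?_, fun z hz hz1 hη => ?_⟩
    · refine Pool.Agent.U180.CG.prs_le ht (by omega) hκ ?_ hw ?_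
      · intro s h1 h2 h3
        refine hs s h1 h2 ?_
        push_cast
        have e : 4 * ((t : ℝ) + 1 - 1) * ((n : ℝ) + 1 - (t + 1)) = 4 * (t : ℝ) * ((n : ℝ) - t) := by
          ring
        rw [e]
        exact h3
      · rw [div_le_iff₀ hb]
        linarith
    · have e1 : t + 1 - 1 = t := by omega
      have e2 : n + 1 - (t + 1) = n - t := by omega
      rw [e1, e2] at hη ⊢
      exact Pool.Agent.U180.CG.den_ge (by omega) hz hz1 hw hη
  intro δ h0 h1
  have hX := Pool.Agent.U180.CG.XX_pos h0 h1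
  have hchi := chi_eq δ
  have hchi0 : 0 < chi δ := by
    by_contra hc
    push Not at hc
    have : chi δ * Real.log 2 ≤ 0 := mul_nonpos_of_nonpos_of_nonneg hc hlog.le
    linarith
  have hclose : ∀ {η : ℝ}, 0 < η → ∀ {n t : ℕ}, ⌈2 / η⌉₊ ≤ n → 1 ≤ n →
      |((t + 1 : ℕ) : ℝ) - δ * n| ≤ η / 2 * n → |(t : ℝ) - δ * n| ≤ η * n := by
    intro η hη n t hn hn1 h
    have h3 : 2 / η ≤ n := (Nat.le_ceil _).trans (by exact_mod_cast hn)
    rw [div_le_iff₀ hη] at h3
    push_cast at h
    have h4 := abs_le.1 h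
    rw [abs_le]
    constructor <;> linarith [h4.1, h4.2]
  refine ⟨hchi0, ?_, ?_, ?_, ?_, ?_, ?_, ?_⟩
  · intro ε hε
    obtain ⟨η, hη, n₀, hS⟩ := Pool.Agent.U180.CG.state h0 h1 (ε := ε * Real.log 2) (by positivity)
    refine ⟨η / 2, by positivity, max n₀ (max ⌈2 / η⌉₊ 1), fun n hn d hd hdn w hw hwX => ?_⟩
    obtain ⟨t, ht, rfl⟩ : ∃ t, Even t ∧ d = t + 1 := by
      obtain ⟨k, hk⟩ := hd
      exact ⟨2 * k, even_two_mul k, hk⟩
    rw [V_eq, partition_eq, meanSize_eq]
    obtain ⟨k1, k2⟩ := hS n ((le_max_left _ _).trans hn) t ht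
      (hclose hη ((le_max_left _ _).trans ((le_max_right _ _).trans hn))
        ((le_max_right _ _).trans ((le_max_right _ _).trans hn)) hdn) w hw (by
        refine hwX.trans (le_of_eq ?_)
        rw [Real.rpow_def_of_pos (by norm_num), ← hchi]
        congr 1
        ring)
    have h3 : ε * Real.log 2 ≤ ε := mul_le_of_le_one_right hε.le hlog1
    exact ⟨k1.trans (mul_le_mul_of_nonneg_right h3 hw.le),
      k2.trans (mul_le_mul_of_nonneg_right h3 (by positivity))⟩
  · intro ε hε
    obtain ⟨η, hη, n₀, hS⟩ := Pool.Agent.U180.CG.canonical h0 h1 (ε := ε * Real.log 2)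
      (by positivity)
    refine ⟨η / 2, by positivity, max n₀ (max ⌈2 / η⌉₊ 1), fun n hn d hd hdn k hk1 hk2 => ?_⟩
    obtain ⟨t, ht, rfl⟩ : ∃ t, Even t ∧ d = t + 1 := by
      obtain ⟨k, hk⟩ := hd
      exact ⟨2 * k, even_two_mul k, hk⟩
    rw [V_eq] at hk1 hk2 ⊢
    rw [count_eq]
    have h2n : (0 : ℝ) < 2 ^ n := by positivity
    have h3 : ε * Real.log 2 ≤ ε := mul_le_of_le_one_right hε.le hlog1
    have h4 : ε ≤ k * (Pool.Agent.U180.BC.ball n t / 2 ^ n) := by
      rw [← mul_div_assoc, le_div_iff₀ h2n]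
      exact hk1
    obtain ⟨k1, k2⟩ := hS n ((le_max_left _ _).trans hn) t ht
      (hclose hη ((le_max_left _ _).trans ((le_max_right _ _).trans hn))
        ((le_max_right _ _).trans ((le_max_right _ _).trans hn)) hdn) k (h3.trans h4) (by
        rw [← mul_div_assoc, div_le_iff₀ h2n, ← hchi]
        refine hk2.trans (le_of_eq ?_)
        ring)
    constructor
    · by_contra hc
      push Not at hc
      have : Pool.Agent.U180.CG.Nk n t k = 0 := by omega
      unfold Pool.Agent.U180.CG.Pk at k1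
      rw [this] at k1
      simp at k1
    · have e1 : Real.log (k.factorial * (Pool.Agent.U180.CG.Nk n t k : ℝ) / ((2 : ℝ) ^ n) ^ k) =
          Real.log (Pool.Agent.U180.CG.Pk n t k) := rfl
      have e2 : (k : ℝ) ^ 2 * (Pool.Agent.U180.BC.ball n t : ℝ) / 2 ^ (n + 1) =
          k ^ 2 * (Pool.Agent.U180.BC.ball n t / 2 ^ n) / 2 := by
        rw [pow_succ (2 : ℝ) n]
        field_simp
      have e3 : (k : ℝ) ^ 2 * (Pool.Agent.U180.BC.ball n t : ℝ) / 2 ^ n =
          k ^ 2 * (Pool.Agent.U180.BC.ball n t / 2 ^ n) := by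
        rw [mul_div_assoc]
      rw [e1, e2, e3]
      exact k2.trans (mul_le_mul_of_nonneg_right h3 (by positivity))
  · intro x hx0 hx d hd hdn
    obtain ⟨t, ht⟩ : ∃ t : ℕ → ℕ, ∀ n, Even (t n) ∧ d n = t n + 1 := by
      have : ∀ n, ∃ t, Even t ∧ d n = t + 1 := by
        intro n
        obtain ⟨k, hk⟩ := hd n
        exact ⟨2 * k, even_two_mul k, hk⟩
      choose t ht using this
      exact ⟨t, ht⟩
    have h3 := Pool.Agent.U180.CG.density h0 h1 hx0 (x := x) (by
      rw [← hchi]
      exact mul_lt_mul_of_pos_right hx hlog) (t := t) (fun n => (ht n).1) (by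
      intro η hη
      rw [Metric.tendsto_atTop] at hdn
      obtain ⟨n₀, hn₀⟩ := hdn (η / 2) (by positivity)
      filter_upwards [eventually_ge_atTop n₀, eventually_ge_atTop ⌈2 / η⌉₊,
        eventually_ge_atTop 1] with n k1 k2 k3
      refine hclose hη k2 k3 ?_
      rw [← (ht n).2]
      have hn' : (0 : ℝ) < n := by exact_mod_cast k3
      have h4 := (hn₀ n k1).le
      rw [Real.dist_eq] at h4
      have e : (d n : ℝ) - δ * n = ((d n : ℝ) / n - δ) * n := by field_simp
      rw [e, abs_mul, abs_of_pos hn']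
      exact mul_le_mul_of_nonneg_right h4 hn'.le)
    refine h3.congr fun n => ?_
    rw [(ht n).2, meanSize_eq, V_eq]
  · intro x hx0 hx
    rw [gasRate_eq]
    refine Pool.Agent.U180.CG.gr_tendsto h0 h1 hx0 ?_
    rw [← hchi]
    exact mul_lt_mul_of_pos_right hx hlog
  · intro x hx
    rw [gasRate_eq]
    refine ⟨?_, Pool.Agent.U180.CG.liminf_gr_le h0 h1 hx, Pool.Agent.U180.CG.limsup_gr_le h0 h1 hx⟩
    refine le_of_forall_pos_le_add fun ε hε => ?_
    have h3 : 1 - H δ - ε ≤ liminf (Pool.Agent.U180.CG.gr δ x) atTop := by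
      refine le_liminf_of_le (Pool.Agent.U180.CG.gr_bddAbove h0 x).isCoboundedUnder_ge ?_
      filter_upwards [Pool.Agent.U180.CG.gr_ge h0 h1 hε] with n hn
      exact hn x hx
    linarith
  · constructor
    · intro h
      obtain ⟨x, hx0, hx1, hx2⟩ := Pool.Agent.U180.CG.exists_x h0 h1 h
      refine ⟨x, ?_, hx1, by rwa [gasRate_eq]⟩
      by_contra hc
      push Not at hc
      have h3 := (Pool.Agent.U180.CG.gr_tendsto h0 h1 hx0.le (by
        rw [← hchi]
        exact mul_lt_mul_of_pos_right hc hlog)).limsup_eq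
      rw [h3] at hx2
      exact absurd hx2 (lt_irrefl _)
    · rintro ⟨x, hx0, hx1, hx2⟩
      rw [gasRate_eq] at hx2
      exact hx2.trans_le (Pool.Agent.U180.CG.limsup_gr_le h0 h1 (hchi0.le.trans hx0))
  · constructor
    · intro h
      obtain ⟨x, hx0, hx1, hx2⟩ := Pool.Agent.U180.CG.exists_x' h0 h1 h
      refine ⟨x, ?_, hx1, by rwa [gasRate_eq]⟩
      by_contra hc
      push Not at hc
      have h3 := (Pool.Agent.U180.CG.gr_tendsto h0 h1 hx0.le (by
        rw [← hchi]
        exact mul_lt_mul_of_pos_right hc hlog)).liminf_eq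
      rw [h3] at hx2
      exact absurd hx2 (lt_irrefl _)
    · rintro ⟨x, hx0, hx1, hx2⟩
      rw [gasRate_eq] at hx2
      exact hx2.trans_le (Pool.Agent.U180.CG.liminf_gr_le h0 h1 (hchi0.le.trans hx0))

end Pool.Agent.Results.MP_0430e4_lc.EquationOfState
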