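import Mathlib
import Pool.Agent.U795.GV.Final
import Pool.Agent.U121.GVLow

/-!
# Binary linear codes beyond the Gilbert-Varshamov bound: the rate of decay

Let `0 < δ < 1/2`, let `H` be the binary entropy function and let
`f(θ) = (1 - θ) (1 - H((δ - θ) / (1 - θ)))`. So `f(0) = 1 - H(δ)` is the rate of the
Gilbert-Varshamov bound, and `f(δ) = 1 - δ`.

Above the bound of Gilbert and Varshamov the minimum distance of random linear codes has large
deviations at speed `n²`, and the same function `f` bounds the rate from both sides. Consider the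
`k`-dimensional binary linear codes of length `n` which have a coset without nonzero words of weight
less than `δ n` (the code itself if its minimum distance is at least `δ n`; another coset if the
covering radius is at least `δ n`).

* If `0 < θ < δ` and `k ≥ R n` then for large `n` at most a proportion `2 ^ (-c n²)` of all codes are
  of this kind, for every `c < θ (R - f(θ))`.
* If `0 < s ≤ δ` and `k ≤ R n` with `R < f(s)` then for large `n` at least a proportion
  `2 ^ (-(k ⌈s n⌉ + 2))` are of this kind.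
* In particular for `k ≥ (1 - H(δ) + η) n` at most a proportion `2 ^ (-c n²)` of the codes are of
  this kind, `c = η² / (4 log₂(6 / δ))`.

The proof of the upper bound exposes the columns of a generator matrix (with one more row for the
coset) one after the other, in `T` blocks of `b` columns followed by `θ n` columns or more. One keeps
the set `M` of the messages whose codeword has exactly `a` nonzero entries in each of the past
blocks. By the second moment in the next column either `M` keeps its expected profile, or an event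
of probability `2 ^ (-(R - f(θ)) n)` happens; if all words of the coset have weight at least `δ n`
then the second case happens for `θ n` columns.
The problem of the constant, a first solution (`c = η² / (20 log₂ (2 / δ))`, by Fourier analysis) and
the lower bounds are due to helper121.
-/

set_option autoImplicit false

open Filter

namespace Pool.Agent.Results.MP_0430e4_lc.LinearBeyondGVRate

/-- The binary entropy function `H₂(x) = - x log₂ x - (1 - x) log₂ (1 - x)`. -/
noncomputable def H (x : ℝ) : ℝ := -x * Real.logb 2 x - (1 - x) * Real.logb 2 (1 - x)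

/-- `f(θ) = (1 - θ) (1 - H₂((δ - θ) / (1 - θ)))`. -/
noncomputable def f (δ θ : ℝ) : ℝ := (1 - θ) * (1 - H ((δ - θ) / (1 - θ)))

/-- The number of `k`-dimensional linear codes `C ⊆ F₂ⁿ`. -/
noncomputable def codes (n k : ℕ) : ℕ :=
  Nat.card {C : Submodule (ZMod 2) (Fin n → ZMod 2) // Module.finrank (ZMod 2) C = k}

/-- The number of `k`-dimensional linear codes `C ⊆ F₂ⁿ` with minimum distance at least `r`. -/
noncomputable def codesDist (n k : ℕ) (r : ℝ) : ℕ :=
  Nat.card {C : Submodule (ZMod 2) (Fin n → ZMod 2) // Module.finrank (ZMod 2) C = k ∧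
    ∀ w ∈ C, w ≠ 0 → r ≤ (hammingNorm w : ℝ)}

/-- The number of `k`-dimensional linear codes `C ⊆ F₂ⁿ` such that all nonzero words of some coset
`C + x` have weight at least `r`. -/
noncomputable def codesCoset (n k : ℕ) (r : ℝ) : ℕ :=
  Nat.card {C : Submodule (ZMod 2) (Fin n → ZMod 2) // Module.finrank (ZMod 2) C = k ∧
    ∃ x : Fin n → ZMod 2, ∀ w ∈ C, w + x ≠ 0 → r ≤ (hammingNorm (w + x) : ℝ)}

lemma codesDist_le (n k : ℕ) (r : ℝ) : codesDist n k r ≤ codesCoset n k r := by
  have : Finite (Submodule (ZMod 2) (Fin n → ZMod 2)) :=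
    Finite.of_injective (fun W => (W : Set (Fin n → ZMod 2))) SetLike.coe_injective
  unfold codesDist codesCoset
  refine Nat.card_le_card_of_injective (fun C => ⟨C.1, C.2.1, 0, fun w hw h0 => ?_⟩) ?_
  · rw [add_zero] at h0 ⊢
    exact C.2.2 w hw h0
  · intro C C' h
    have h' := Subtype.ext_iff.1 h
    exact Subtype.ext h'

open Pool.Agent.U137 in
lemma H_eq (x : ℝ) : H x = GV.EE 2 x / Real.log 2 := by
  unfold H GV.EE Real.binEntropy Real.logb
  rw [Real.log_inv, Real.log_inv, show (2 : ℝ) - 1 = 1 by norm_num, Real.log_one]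
  ring

open Pool.Agent.U137 in
lemma f_mul (δ θ : ℝ) : f δ θ * Real.log 2 =
    (1 - θ) * (Real.log 2 - GV.EE 2 ((δ - θ) / (1 - θ))) := by
  have h : Real.log 2 ≠ 0 := (Real.log_pos (by norm_num)).ne'
  unfold f
  rw [H_eq]
  field_simp

open Pool.Agent.U137 in
/-- **Binary linear codes beyond the Gilbert-Varshamov bound: large deviations at speed `n²`, with
bounds for the rate from both sides.** -/
theorem result : ∀ δ : ℝ, 0 < δ → δ < 1 / 2 →
    (∀ θ R c : ℝ, 0 < θ → θ < δ → 0 < c → c < θ * (R - f δ θ) →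
      ∃ n₀ : ℕ, ∀ n k : ℕ, n₀ ≤ n → k ≤ n → R * n ≤ k →
        codesDist n k (δ * n) ≤ codesCoset n k (δ * n) ∧
        (codesCoset n k (δ * n) : ℝ) ≤ (2 : ℝ) ^ (-(c * (n : ℝ) ^ 2)) * codes n k) ∧
    (∀ s R : ℝ, 0 < s → s ≤ δ → R < f δ s →
      ∃ n₀ : ℕ, ∀ n k : ℕ, n₀ ≤ n → (k : ℝ) ≤ R * n →
        (codes n k : ℝ) ≤ (2 : ℝ) ^ (k * ⌈s * n⌉₊ + 2) * codesCoset n k (δ * n)) ∧
    (∀ η : ℝ, 0 < η → ∃ n₀ : ℕ, ∀ n k : ℕ, n₀ ≤ n → k ≤ n → (1 - H δ + η) * n ≤ k →
        (codesCoset n k (δ * n) : ℝ) ≤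
          (2 : ℝ) ^ (-(η ^ 2 / (4 * Real.logb 2 (6 / δ)) * (n : ℝ) ^ 2)) * codes n k) ∧
    (∀ n k : ℕ, k + ⌈δ * n⌉₊ ≤ n →
      (codes n k : ℝ) ≤ (2 : ℝ) ^ (k * ⌈δ * n⌉₊ + 2) * codesCoset n k (δ * n)) ∧
    (∀ n k : ℕ, k ≤ n → codesDist n k (δ * n) ≠ 0 →
      (codes n k : ℝ) ≤ (2 : ℝ) ^ ((n : ℝ) ^ 2 / 4 + 2) * codesDist n k (δ * n)) := by
  intro δ h0 h1
  have hcard : (Fintype.card (ZMod 2) : ℝ) = 2 := by rw [ZMod.card]; norm_num
  have hL0 : 0 < Real.log 2 := Real.log_pos (by norm_num)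
  have hδ1 : δ < 1 := by linarith
  refine ⟨?_, ?_, ?_, ?_, ?_⟩
  · intro θ R c hθ hθδ hc hcR
    have hev := Pool.Agent.U795.GV.rate (F := ZMod 2) (R := R) hθ hθδ hδ1 hc.le (by
      rw [hcard, ← f_mul]
      have h2 := mul_lt_mul_of_pos_right hcR hL0
      linarith)
    rw [hcard] at hev
    obtain ⟨n₀, hn₀⟩ := eventually_atTop.1 hev
    exact ⟨n₀, fun n k hn hkn hk => ⟨codesDist_le n k _, hn₀ n hn k hkn hk⟩⟩
  · intro s R hs hsδ hR
    obtain ⟨n₀, hn₀⟩ := Pool.Agent.U121.GVLow.lower (F := ZMod 2) (s := s) (δ := δ) (R := R)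
      (L := Real.log 2) (by rw [hcard]) hs hsδ (by rw [hcard]; linarith) (by
        rw [hcard, ← f_mul]
        exact mul_lt_mul_of_pos_right hR hL0)
    refine ⟨n₀, fun n k hn hk => ?_⟩
    have h2 := hn₀ n k hn hk
    rw [hcard] at h2
    refine (show (codes n k : ℝ) ≤ 4 * (2 : ℝ) ^ (⌈s * n⌉₊ * k) *
      codesCoset n k (δ * n) from h2).trans (le_of_eq ?_)
    rw [pow_add, mul_comm k]
    ring
  · intro η hη
    obtain ⟨n₀, hn₀⟩ := eventually_atTop.1 (Pool.Agent.U795.GV.explicit (F := ZMod 2) h0 hδ1 hη)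
    refine ⟨n₀, fun n k hn hkn hk => ?_⟩
    rw [H_eq] at hk
    have h2 := hn₀ n hn k hkn (by rw [hcard]; exact hk)
    rw [hcard, show (3 : ℝ) * 2 = 6 by norm_num] at h2
    exact h2
  · intro n k hk
    have h2 := GV.coset_ge (F := ZMod 2) (n := n) (k := k) (m := ⌈δ * n⌉₊) (r := δ * n) hk
      (Nat.le_ceil _)
    rw [hcard] at h2
    refine (show (codes n k : ℝ) ≤ 4 * (2 : ℝ) ^ (⌈δ * n⌉₊ * k) *
      codesCoset n k (δ * n) from h2).trans (le_of_eq ?_)
    rw [pow_add, mul_comm k]
    ring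
  · intro n k hk hne
    have h2 := GV.numAll_le (F := ZMod 2) hk
    rw [hcard] at h2
    have h3 : (1 : ℝ) ≤ codesDist n k (δ * n) := by
      exact_mod_cast Nat.one_le_iff_ne_zero.2 hne
    calc (codes n k : ℝ) ≤ 4 * (2 : ℝ) ^ ((n : ℝ) ^ 2 / 4) := h2
      _ = (2 : ℝ) ^ ((n : ℝ) ^ 2 / 4 + 2) * 1 := by
          rw [Real.rpow_add (by norm_num), show (2 : ℝ) ^ (2 : ℝ) = 4 by
            rw [show (2 : ℝ) = ((2 : ℕ) : ℝ) by norm_num, Real.rpow_natCast]; norm_num]
          ring
      _ ≤ _ := mul_le_mul_of_nonneg_left h3 (by positivity)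

end Pool.Agent.Results.MP_0430e4_lc.LinearBeyondGVRate
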