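import Pool.Agent.U279.GP.Final
import Pool.Agent.U279.GP.CntK

/-!
# The number of binary codes of every size, and codes in random sets of words

Let `d` be odd, let `V = V(n, d)` be the number of words at distance less than `d` from a word, and
let `A = A(n, d)` be the largest size of a binary code of length `n` and minimum distance at least
`d`; the bound of Gilbert and Varshamov is `A ≥ 2^n / V`. Put

`χ₁(δ) = (H(δ) + H(1/2 - √(δ(1 - δ))) - 1) / 2`, `χ₂(δ) = H(δ) - δ - (1 - δ) H(δ / (2(1 - δ)))`.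

Let `d / n → δ`, `0 < δ < 1/2`. We prove:

(1) For every `k = y (log 2) n 2^n / V` the number of the codes with `k` words and minimum distance
at least `d` is at most `(2^(n k) / k!) 2^(-(E(y) - ε) n k)`, where `E(y) = y / 2` for `y ≤ χ₁(δ)`
and `E(y) = χ₁(δ) - χ₁(δ)^2 / (2 y)` for `y ≥ χ₁(δ)`. So the probability that `k` independent
uniform words have mutual distances at least `d` is at most `2^(-(χ₁(δ) - o(1)) n k)` if
`k V / (n 2^n) → ∞`. (For `y < min (χ₁(δ), χ₂(δ))` the exponent `E(y) = y / 2` is exact, by the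
pool's hand-in EquationOfState.) The speed `n k` is the right one: an optimal code contains
`A.choose k` codes with `k` words. For `k` of the order `2^(c n)` with `c > 1 - H(δ)` the bound can
also be used with a smaller distance `d'`, since `count n d k ≤ count n d' k`.

(2) The number of all codes of length `n` and minimum distance at least `d` is at most
`2^(((1 - χ₁(δ) + ε) n - log₂ A) A + (χ₁(δ)^2 / 2 + ε) (log 2) n^2 2^n / V)`, while the number of the
sets of `A` words is `2^((n - log₂ A + O(1)) A)`. So if `A V / (n 2^n) → ∞`, the number of all codes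
is at most `2^(-(χ₁(δ) - o(1)) n A)` times the number of the sets of `A` words.

(3) Let `X` consist of `N` independent uniform random words of length `n`, where
`N V / 2^n = 2^(x n)`, and let `best d X` be the largest size of a code of minimum distance at least
`d` all of whose words belong to `X`. For all `0 ≤ x ≤ χ₁(δ) - ε`, with probability near one,

`(min (x, χ₂(δ)) - ε) (log 2) n 2^n / V ≤ best d X ≤ (K(x) + ε) (log 2) n 2^n / V`,

where `K(x) = 2 x` for `x ≤ χ₁(δ) / 2` and `K(x) = χ₁(δ)^2 / (2 (χ₁(δ) - x))` for `x ≥ χ₁(δ) / 2`.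
In particular the largest code in the random set has the exact order `n 2^n / V` for `0 < x < χ₁(δ)`,
and its size is known up to a factor two for `x ≤ min (χ₁(δ) / 2, χ₂(δ))`. So a set of
`2^(x n) 2^n / V` random words with `x < χ₁(δ)` does not contain a code which is larger than the
codes of Jiang and Vardy by more than a constant factor.

Proof. The number of the codes with `k` words is estimated by the partition function of the
hard-core model at the activity `2^(χ₁ n) k / 2^n` and the mean field bound for its pressure (exact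
form of the container method with the values of the Krawtchouk polynomials). Lower bound in (3):
after the removal of few words the graph of the close pairs of the random words has almost constant
degrees, and each neighbourhood in it has bounded degeneracy; the mean of the hard-core model on this
(not regular) graph at a suitable activity is at least `(1 - o(1)) x (log 2) n 2^n / V`.
-/

open Finset

namespace Pool.Agent.Results.MP_0430e4_lc.NumberOfCodes

/-- The set `C` of binary words of length `n` has minimum distance at least `d`. -/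
def IsCode {n : ℕ} (d : ℕ) (C : Finset (Fin n → Bool)) : Prop :=
  ∀ x ∈ C, ∀ y ∈ C, x ≠ y → d ≤ hammingDist x y

/-- `A(n,d)`: the largest size of a binary code of length `n` with minimum distance at least `d`. -/
noncomputable def A (n d : ℕ) : ℕ :=
  sSup {k | ∃ C : Finset (Fin n → Bool), IsCode d C ∧ C.card = k}

open Classical in
/-- All binary codes of length `n` with minimum distance at least `d`. -/
noncomputable def codes (n d : ℕ) : Finset (Finset (Fin n → Bool)) := univ.filter (IsCode d)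

/-- The number of the codes of length `n` with `k` words and minimum distance at least `d`. -/
noncomputable def count (n d k : ℕ) : ℕ := ((codes n d).filter fun C => C.card = k).card

/-- The largest size of a code of minimum distance at least `d` with words among the words `X`. -/
noncomputable def best {n N : ℕ} (d : ℕ) (X : Fin N → Fin n → Bool) : ℕ :=
  sSup {k | ∃ C : Finset (Fin n → Bool), (∀ x ∈ C, ∃ i, X i = x) ∧ IsCode d C ∧ C.card = k}

open Classical in
/-- The probability of the event `P` for `N` independent uniform random words of length `n`. -/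
noncomputable def prob (n N : ℕ) (P : (Fin N → Fin n → Bool) → Prop) : ℝ :=
  ((univ : Finset (Fin N → Fin n → Bool)).filter P).card / ((2 : ℝ) ^ n) ^ N

/-- The number of the words of length `n` at distance less than `d` from a given word. -/
def V (n d : ℕ) : ℕ := ∑ i ∈ range d, n.choose i

/-- The binary entropy function `H(x) = - x log₂ x - (1 - x) log₂ (1 - x)`. -/
noncomputable def H (x : ℝ) : ℝ := -x * Real.logb 2 x - (1 - x) * Real.logb 2 (1 - x)

/-- `χ₁(δ) = (H(δ) + H(1/2 - √(δ(1 - δ))) - 1) / 2`. -/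
noncomputable def chi1 (δ : ℝ) : ℝ := (H δ + H (1 / 2 - √(δ * (1 - δ))) - 1) / 2

/-- `χ₂(δ) = H(δ) - δ - (1 - δ) H(δ / (2(1 - δ)))`. -/
noncomputable def chi2 (δ : ℝ) : ℝ := H δ - δ - (1 - δ) * H (δ / (2 * (1 - δ)))

/-- The exponent `E(y)` of the bound for the number of the codes with `y (log 2) n 2^n / V` words. -/
noncomputable def expo (δ y : ℝ) : ℝ :=
  if y ≤ chi1 δ then y / 2 else chi1 δ - chi1 δ ^ 2 / (2 * y)

/-- The constant of the upper bound. -/
noncomputable def upperK (δ x : ℝ) : ℝ :=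
  if x ≤ chi1 δ / 2 then 2 * x else chi1 δ ^ 2 / (2 * (chi1 δ - x))

theorem H_eq (x : ℝ) : H x = Pool.Agent.U180.CG.h x / Real.log 2 := by
  unfold H Pool.Agent.U180.CG.h Real.binEntropy Real.logb
  rw [Real.log_inv, Real.log_inv]
  ring

theorem chi1_eq (δ : ℝ) : chi1 δ * Real.log 2 = Pool.Agent.U180.CG.X1 δ := by
  have hlog : 0 < Real.log 2 := Real.log_pos (by norm_num)
  unfold chi1 Pool.Agent.U180.CG.X1
  rw [H_eq, H_eq]
  field_simp

theorem chi2_eq (δ : ℝ) : chi2 δ * Real.log 2 = Pool.Agent.U180.CG.X2 δ := by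
  have hlog : 0 < Real.log 2 := Real.log_pos (by norm_num)
  unfold chi2 Pool.Agent.U180.CG.X2
  rw [H_eq, H_eq]
  field_simp
  ring

theorem upperK_eq (δ x : ℝ) : upperK δ x * Real.log 2 =
    Pool.Agent.U279.GP.upc (Pool.Agent.U180.CG.X1 δ) (x * Real.log 2) := by
  have hlog : 0 < Real.log 2 := Real.log_pos (by norm_num)
  unfold upperK Pool.Agent.U279.GP.upc
  rw [← chi1_eq]
  by_cases h : x ≤ chi1 δ / 2
  · have h1 : x * Real.log 2 ≤ chi1 δ * Real.log 2 / 2 := by
      have := mul_le_mul_of_nonneg_right h hlog.le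
      linarith
    rw [if_pos h, if_pos h1]
    ring
  · have h1 : ¬ x * Real.log 2 ≤ chi1 δ * Real.log 2 / 2 := by
      intro h2
      apply h
      have : x * Real.log 2 ≤ (chi1 δ / 2) * Real.log 2 := by linarith
      exact le_of_mul_le_mul_right this hlog
    rw [if_neg h, if_neg h1]
    have e1 : (chi1 δ * Real.log 2) ^ 2 / (2 * (chi1 δ * Real.log 2 - x * Real.log 2)) =
        (chi1 δ ^ 2 * Real.log 2 * Real.log 2) / ((2 * (chi1 δ - x)) * Real.log 2) := by
      congr 1 <;> ring
    rw [e1, mul_div_mul_right _ _ hlog.ne']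
    ring

theorem expo_eq {δ y : ℝ} : expo δ y * Real.log 2 =
    Pool.Agent.U279.GP.ex (Pool.Agent.U180.CG.X1 δ) (y * Real.log 2) := by
  have hlog : 0 < Real.log 2 := Real.log_pos (by norm_num)
  unfold expo Pool.Agent.U279.GP.ex
  rw [← chi1_eq]
  by_cases h : y ≤ chi1 δ
  · rw [if_pos h, if_pos (mul_le_mul_of_nonneg_right h hlog.le)]
    ring
  · rw [if_neg h, if_neg (fun h1 => h (le_of_mul_le_mul_right h1 hlog))]
    have e4 : (chi1 δ * Real.log 2) ^ 2 / (2 * (y * Real.log 2)) =
        chi1 δ ^ 2 / (2 * y) * Real.log 2 := by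
      rcases eq_or_ne y 0 with rfl | hy
      · simp
      · field_simp
    rw [e4]
    ring

open MeasureTheory in
theorem prob_eq (n N : ℕ) (P : (Fin N → Fin n → Bool) → Prop) :
    prob n N P = (Pool.Agent.U279.GP.law (Pool.Agent.U279.GP.unif n) N).real {X | P X} := by
  classical
  unfold prob
  rw [Pool.Agent.U279.GP.law_count {X : Fin N → Fin n → Bool | P X}]
  congr 3

theorem random_sets : ∀ δ : ℝ, 0 < δ → δ < 1 / 2 → 0 < chi1 δ ∧ 0 < chi2 δ ∧
    ∀ ε : ℝ, 0 < ε → ∃ η : ℝ, 0 < η ∧ ∃ n₀ : ℕ, ∀ n : ℕ, n₀ ≤ n → ∀ d : ℕ, Odd d →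
      |(d : ℝ) - δ * n| ≤ η * n → ∀ (x : ℝ) (N : ℕ), 0 ≤ x → x ≤ chi1 δ - ε →
      (N * V n d : ℝ) = (2 : ℝ) ^ (x * n) * 2 ^ n →
        1 - ε ≤ prob n N fun X =>
          (min x (chi2 δ) - ε) * (Real.log 2 * n * 2 ^ n / V n d) ≤ best d X ∧
          best d X ≤ (upperK δ x + ε) * (Real.log 2 * n * 2 ^ n / V n d) := by
  intro δ h0 h1
  have hlog : 0 < Real.log 2 := Real.log_pos (by norm_num)
  have hlog1 : Real.log 2 ≤ 1 := by linarith [Real.log_two_lt_d9]
  have hc1 : 0 < chi1 δ := by
    have h := Pool.Agent.U180.CG.X1_pos h0 h1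
    rw [← chi1_eq] at h
    exact pos_of_mul_pos_left h hlog.le
  have hc2 : 0 < chi2 δ := by
    have h := Pool.Agent.U180.CG.X2_pos h0 h1
    rw [← chi2_eq] at h
    exact pos_of_mul_pos_left h hlog.le
  refine ⟨hc1, hc2, fun ε hε => ?_⟩
  obtain ⟨η, hη, n₀, H⟩ := Pool.Agent.U279.GP.main h0 h1 (ε := ε * Real.log 2) (by positivity)
  refine ⟨η / 2, by positivity, max n₀ (max ⌈2 / η⌉₊ 1), fun n hn d hd hdn x N hx0 hx1 hN => ?_⟩
  obtain ⟨t, ht, rfl⟩ : ∃ t, Even t ∧ d = t + 1 := by
    obtain ⟨k, hk⟩ := hd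
    exact ⟨2 * k, even_two_mul k, hk⟩
  have hn1 : 1 ≤ n := (le_max_right _ _).trans ((le_max_right _ _).trans hn)
  have hn0 : (0 : ℝ) < n := by exact_mod_cast hn1
  have hclose : |(t : ℝ) - δ * n| ≤ η * n := by
    have h3 : 2 / η ≤ n := (Nat.le_ceil _).trans
      (by exact_mod_cast (le_max_left _ _).trans ((le_max_right _ _).trans hn))
    rw [div_le_iff₀ hη] at h3
    push_cast at hdn
    have h4 := abs_le.1 hdn
    rw [abs_le]
    constructor <;> linarith [h4.1, h4.2]
  have hb : (0 : ℝ) < V n (t + 1) := Pool.Agent.U180.CG.ball_pos n t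
  have h2n : (0 : ℝ) < 2 ^ n := by positivity
  have hmain := H n ((le_max_left _ _).trans hn) t ht hclose (x * Real.log 2) N (by positivity)
    (by
      rw [← chi1_eq]
      have := mul_le_mul_of_nonneg_right hx1 hlog.le
      linarith)
    (by
      have e1 : (N : ℝ) * ((Pool.Agent.U180.BC.ball n t : ℕ) / 2 ^ n) = N * V n (t + 1) / 2 ^ n := by
        rw [mul_div_assoc]
        rfl
      rw [e1, hN, mul_div_assoc, div_self h2n.ne', mul_one, Real.rpow_def_of_pos (by norm_num)]
      congr 1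
      ring)
  have hε1 : ε * Real.log 2 ≤ ε := mul_le_of_le_one_right hε.le hlog1
  rw [prob_eq]
  refine le_trans (by linarith) (hmain.trans
    (MeasureTheory.measureReal_mono ?_ (MeasureTheory.measure_ne_top _ _)))
  rintro X ⟨hX1, hX2⟩
  have hbest : best (t + 1) X = Pool.Agent.U279.GP.best (Pool.Agent.U180.CG.cl n t) X :=
    Pool.Agent.U279.GP.best_code X
  have e2 : (Pool.Agent.U180.BC.ball n t : ℝ) = V n (t + 1) := rfl
  rw [← hbest, e2] at hX1 hX2
  have hmin : min (x * Real.log 2) (Pool.Agent.U180.CG.X2 δ) = min x (chi2 δ) * Real.log 2 := by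
    rw [← chi2_eq, min_mul_of_nonneg _ _ hlog.le]
  rw [hmin] at hX1
  rw [← upperK_eq] at hX2
  have e3 : ∀ y : ℝ, y * (Real.log 2 * n * 2 ^ n / V n (t + 1)) =
      (y * Real.log 2) * n * (2 ^ n / V n (t + 1)) := fun y => by ring
  have e4 : ∀ b : ℝ, b = b * (V n (t + 1) / 2 ^ n) * (2 ^ n / V n (t + 1)) := fun b => by
    field_simp
  have hq : (0 : ℝ) ≤ 2 ^ n / V n (t + 1) := by positivity
  refine ⟨?_, ?_⟩
  · rw [e3, e4 (best (t + 1) X)]
    refine mul_le_mul_of_nonneg_right ?_ hq
    linarith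
  · rw [e3, e4 (best (t + 1) X)]
    refine mul_le_mul_of_nonneg_right ?_ hq
    linarith

open Pool.Agent.U180.CG in
theorem codes_eq (n t : ℕ) : codes n (t + 1) = inds (cl n t) (univ : Finset (Fin n → Bool)) := by
  classical
  ext C
  rw [mem_inds]
  unfold codes
  rw [mem_filter]
  exact ⟨fun h => ⟨subset_univ _, isCode_iff.1 h.2⟩, fun h => ⟨mem_univ _, isCode_iff.2 h.2⟩⟩

open Pool.Agent.U180.CG in
theorem count_eq (n t k : ℕ) : count n (t + 1) k = Nk n t k := by
  unfold count Nk
  rw [codes_eq]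

theorem numbers : ∀ δ : ℝ, 0 < δ → δ < 1 / 2 → ∀ ε : ℝ, 0 < ε →
    ∃ η : ℝ, 0 < η ∧ ∃ n₀ : ℕ, ∀ n : ℕ, n₀ ≤ n → ∀ d : ℕ, Odd d →
      |(d : ℝ) - δ * n| ≤ η * n →
      (∀ (k : ℕ) (y : ℝ), (k * V n d : ℝ) = y * (Real.log 2 * n * 2 ^ n) →
        (count n d k : ℝ) ≤ ((2 : ℝ) ^ n) ^ k / k.factorial *
          (2 : ℝ) ^ (-((expo δ y - ε) * n * k))) ∧
      Real.logb 2 (codes n d).card ≤
        ((1 - chi1 δ + ε) * n - Real.logb 2 (A n d)) * A n d +
          (chi1 δ ^ 2 / 2 + ε) * (Real.log 2 * n ^ 2 * 2 ^ n / V n d) := by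
  intro δ h0 h1 ε hε
  have hlog : 0 < Real.log 2 := Real.log_pos (by norm_num)
  have hlog1 : Real.log 2 ≤ 1 := by linarith [Real.log_two_lt_d9]
  obtain ⟨η₁, hη₁, n₁, H1⟩ := Pool.Agent.U279.GP.cntk_ev h0 h1 (ε := ε * Real.log 2)
    (by positivity)
  obtain ⟨η₂, hη₂, n₂, H2⟩ := Pool.Agent.U279.GP.tot_ev h0 h1 (ε := ε * Real.log 2 ^ 2)
    (by positivity)
  obtain ⟨η, hη⟩ : ∃ η, η = min η₁ η₂ := ⟨_, rfl⟩
  have hη0 : 0 < η := by rw [hη]; exact lt_min hη₁ hη₂
  refine ⟨η / 2, by positivity, max (max n₁ n₂) (max ⌈2 / η⌉₊ 1), fun n hn d hd hdn => ?_⟩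
  obtain ⟨t, ht, rfl⟩ : ∃ t, Even t ∧ d = t + 1 := by
    obtain ⟨k, hk⟩ := hd
    exact ⟨2 * k, even_two_mul k, hk⟩
  have hn1 : 1 ≤ n := (le_max_right _ _).trans ((le_max_right _ _).trans hn)
  have hn0 : (0 : ℝ) < n := by exact_mod_cast hn1
  have hclose : |(t : ℝ) - δ * n| ≤ η * n := by
    have h3 : 2 / η ≤ n := (Nat.le_ceil _).trans
      (by exact_mod_cast (le_max_left _ _).trans ((le_max_right _ _).trans hn))
    rw [div_le_iff₀ hη0] at h3
    push_cast at hdn
    have h4 := abs_le.1 hdn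
    rw [abs_le]
    constructor <;> linarith [h4.1, h4.2]
  have hb : (0 : ℝ) < V n (t + 1) := Pool.Agent.U180.CG.ball_pos n t
  have h2n : (0 : ℝ) < 2 ^ n := by positivity
  have e2 : (Pool.Agent.U180.BC.ball n t : ℝ) = V n (t + 1) := rfl
  refine ⟨fun k y hk => ?_, ?_⟩
  · have h3 := H1 n ((le_max_left _ _).trans ((le_max_left _ _).trans hn)) t ht
      (hclose.trans (mul_le_mul_of_nonneg_right (hη ▸ min_le_left _ _) hn0.le)) k
      (y * Real.log 2) (by
        rw [e2, ← mul_div_assoc, hk, div_eq_iff h2n.ne']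
        ring)
    unfold Pool.Agent.U180.CG.Pk at h3
    rw [← count_eq, div_le_iff₀ (by positivity)] at h3
    have hf : (0 : ℝ) < k.factorial := by exact_mod_cast Nat.factorial_pos k
    have e3 : Real.exp (-((Pool.Agent.U279.GP.ex (Pool.Agent.U180.CG.X1 δ) (y * Real.log 2) -
        ε * Real.log 2) * n * k)) = (2 : ℝ) ^ (-((expo δ y - ε) * n * k)) := by
      rw [Real.rpow_def_of_pos (by norm_num), ← expo_eq]
      congr 1
      ring
    rw [e3] at h3
    calc (count n (t + 1) k : ℝ) = (k.factorial * count n (t + 1) k) / k.factorial := by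
          field_simp
      _ ≤ ((2 : ℝ) ^ (-((expo δ y - ε) * n * k)) * ((2 : ℝ) ^ n) ^ k) /
          k.factorial := div_le_div_of_nonneg_right h3 hf.le
      _ = _ := by ring
  · have h3 := H2 n ((le_max_right _ _).trans ((le_max_left _ _).trans hn)) t ht
      (hclose.trans (mul_le_mul_of_nonneg_right (hη ▸ min_le_right _ _) hn0.le))
    rw [← codes_eq] at h3
    have hA : Pool.Agent.U180.CG.A n (t + 1) = A n (t + 1) := rfl
    rw [hA, e2, ← chi1_eq] at h3
    have hA0 : (0 : ℝ) ≤ A n (t + 1) := Nat.cast_nonneg _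
    have hL2 : Real.log 2 ^ 2 ≤ Real.log 2 := by
      rw [sq]
      exact mul_le_of_le_one_left hlog.le hlog1
    unfold Real.logb
    rw [div_le_iff₀ hlog]
    refine h3.trans ?_
    have h5 : (Real.log 2 - chi1 δ * Real.log 2 + ε * Real.log 2 ^ 2) * n -
        Real.log (A n (t + 1)) ≤
        ((1 - chi1 δ + ε) * n - Real.log (A n (t + 1)) / Real.log 2) * Real.log 2 := by
      have h6 := mul_le_mul_of_nonneg_right (mul_le_mul_of_nonneg_left hL2 hε.le) hn0.le
      have e3 : ((1 - chi1 δ + ε) * n - Real.log (A n (t + 1)) / Real.log 2) * Real.log 2 =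
          (Real.log 2 - chi1 δ * Real.log 2 + ε * Real.log 2) * n - Real.log (A n (t + 1)) := by
        field_simp
      rw [e3]
      linarith
    have h4 := mul_le_mul_of_nonneg_right h5 hA0
    have h6 : ((chi1 δ * Real.log 2) ^ 2 / 2 + ε * Real.log 2 ^ 2) * n ^ 2 *
        (2 ^ n / V n (t + 1)) =
        (chi1 δ ^ 2 / 2 + ε) * (Real.log 2 * n ^ 2 * 2 ^ n / V n (t + 1)) * Real.log 2 := by
      ring
    rw [h6]
    have e5 : (((1 - chi1 δ + ε) * n - Real.log (A n (t + 1)) / Real.log 2) * A n (t + 1) +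
        (chi1 δ ^ 2 / 2 + ε) * (Real.log 2 * n ^ 2 * 2 ^ n / V n (t + 1))) * Real.log 2 =
        ((1 - chi1 δ + ε) * n - Real.log (A n (t + 1)) / Real.log 2) * Real.log 2 *
          A n (t + 1) +
        (chi1 δ ^ 2 / 2 + ε) * (Real.log 2 * n ^ 2 * 2 ^ n / V n (t + 1)) * Real.log 2 := by
      ring
    rw [e5]
    linarith

theorem result : ∀ δ : ℝ, 0 < δ → δ < 1 / 2 → 0 < chi1 δ ∧ 0 < chi2 δ ∧
    ∀ ε : ℝ, 0 < ε → ∃ η : ℝ, 0 < η ∧ ∃ n₀ : ℕ, ∀ n : ℕ, n₀ ≤ n → ∀ d : ℕ, Odd d →
      |(d : ℝ) - δ * n| ≤ η * n →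
      -- (1) the number of the codes with `k` words
      (∀ (k : ℕ) (y : ℝ), (k * V n d : ℝ) = y * (Real.log 2 * n * 2 ^ n) →
        (A n d).choose k ≤ count n d k ∧
        (count n d k : ℝ) ≤ ((2 : ℝ) ^ n) ^ k / k.factorial *
          (2 : ℝ) ^ (-((expo δ y - ε) * n * k))) ∧
      -- (2) the number of all codes
      ((A n d : ℝ) ≤ Real.logb 2 (codes n d).card ∧
        Real.logb 2 (codes n d).card ≤
          ((1 - chi1 δ + ε) * n - Real.logb 2 (A n d)) * A n d +
            (chi1 δ ^ 2 / 2 + ε) * (Real.log 2 * n ^ 2 * 2 ^ n / V n d)) ∧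
      -- (3) the codes in random sets of words
      ∀ (x : ℝ) (N : ℕ), 0 ≤ x → x ≤ chi1 δ - ε → (N * V n d : ℝ) = (2 : ℝ) ^ (x * n) * 2 ^ n →
        1 - ε ≤ prob n N fun X =>
          (min x (chi2 δ) - ε) * (Real.log 2 * n * 2 ^ n / V n d) ≤ best d X ∧
          best d X ≤ (upperK δ x + ε) * (Real.log 2 * n * 2 ^ n / V n d) := by
  intro δ h0 h1
  obtain ⟨hc1, hc2, H1⟩ := random_sets δ h0 h1
  refine ⟨hc1, hc2, fun ε hε => ?_⟩
  obtain ⟨η₁, hη₁, n₁, H1⟩ := H1 ε hε
  obtain ⟨η₂, hη₂, n₂, H2⟩ := numbers δ h0 h1 ε hε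
  refine ⟨min η₁ η₂, lt_min hη₁ hη₂, max n₁ n₂, fun n hn d hd hdn => ?_⟩
  have hn0 : (0 : ℝ) ≤ n := Nat.cast_nonneg n
  obtain ⟨h3, h4⟩ := H2 n ((le_max_right _ _).trans hn) d hd
    (hdn.trans (mul_le_mul_of_nonneg_right (min_le_right _ _) hn0))
  have hch : ∀ k, (A n d).choose k ≤ count n d k := by
    obtain ⟨t, rfl⟩ : ∃ t, d = t + 1 := ⟨d - 1, by
      have := hd.pos
      omega⟩
    intro k
    rw [count_eq]
    exact Pool.Agent.U279.GP.choose_le n t k
  refine ⟨fun k y hk => ⟨hch k, h3 k y hk⟩, ⟨?_, h4⟩, ?_⟩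
  · have h5 : 2 ^ A n d ≤ (codes n d).card := by
      rw [← Nat.sum_range_choose]
      calc ∑ m ∈ range (A n d + 1), (A n d).choose m ≤ ∑ m ∈ range (A n d + 1), count n d m :=
            Finset.sum_le_sum fun m _ => hch m
        _ = ((codes n d).filter fun C => C.card ∈ range (A n d + 1)).card := by
            rw [Finset.card_eq_sum_card_fiberwise (f := fun C => C.card)
              (t := range (A n d + 1))]
            · refine Finset.sum_congr rfl fun m hm => ?_
              unfold count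
              congr 1
              ext C
              simp only [mem_filter]
              constructor
              · rintro ⟨h, rfl⟩
                exact ⟨⟨h, hm⟩, rfl⟩
              · rintro ⟨⟨h, _⟩, h2⟩
                exact ⟨h, h2⟩
            · intro C hC
              exact (mem_filter.1 hC).2
        _ ≤ (codes n d).card := Finset.card_filter_le _ _
    have h6 : ((2 : ℝ) ^ A n d) ≤ (codes n d).card := by exact_mod_cast h5
    rw [Real.le_logb_iff_rpow_le (by norm_num) (lt_of_lt_of_le (by positivity) h6),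
      Real.rpow_natCast]
    exact h6
  · exact H1 n ((le_max_left _ _).trans hn) d hd
      (hdn.trans (mul_le_mul_of_nonneg_right (min_le_left _ _) hn0))

end Pool.Agent.Results.MP_0430e4_lc.NumberOfCodes
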